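import Pool.Agent.Helper53.AE.GoalsC

/-!
# Packet AE-QPR (MP_8130e1_an), helper77
-/

set_option autoImplicit false

open scoped ComplexOrder Topology
open Filter TopologicalSpace

namespace Pool.Agent.Helper77.AE.QPR

open Pool.Agent.Helper53.AE

section

variable {M : Type} [CStarAlgebra M]

/-- the elements of `D` under the projection `P`. -/
def Hs (D : NonUnitalStarSubalgebra ℂ M) (P : M) (hP : star P = P) :
    NonUnitalStarSubalgebra ℂ M where
  carrier := {d | d ∈ D ∧ P * d = d ∧ d * P = d}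
  add_mem' := by
    rintro a c ⟨ha, ha1, ha2⟩ ⟨hc, hc1, hc2⟩
    exact ⟨D.add_mem ha hc, by rw [mul_add, ha1, hc1], by rw [add_mul, ha2, hc2]⟩
  zero_mem' := ⟨D.zero_mem, mul_zero _, zero_mul _⟩
  mul_mem' := by
    rintro a c ⟨ha, ha1, ha2⟩ ⟨hc, hc1, hc2⟩
    exact ⟨D.mul_mem ha hc, by rw [← mul_assoc, ha1], by rw [mul_assoc, hc2]⟩
  smul_mem' := by
    rintro r a ⟨ha, ha1, ha2⟩
    exact ⟨D.smul_mem r ha, by rw [mul_smul_comm, ha1], by rw [smul_mul_assoc, ha2]⟩
  star_mem' := by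
    rintro a ⟨ha, ha1, ha2⟩
    refine ⟨star_mem ha, ?_, ?_⟩
    · have h := congrArg star ha2
      rwa [star_mul, hP] at h
    · have h := congrArg star ha1
      rwa [star_mul, hP] at h

theorem mem_Hs {D : NonUnitalStarSubalgebra ℂ M} {P : M} {hP : star P = P} {d : M} :
    d ∈ Hs D P hP ↔ d ∈ D ∧ P * d = d ∧ d * P = d := Iff.rfl

theorem Hs_closed {D : NonUnitalStarSubalgebra ℂ M} (hD : IsClosed (D : Set M)) {P : M}
    (hP : star P = P) : IsClosed (Hs D P hP : Set M) := by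
  have h1 : (Hs D P hP : Set M) = (D : Set M) ∩ ({d | P * d = d} ∩ {d | d * P = d}) := by
    ext d
    exact Iff.rfl
  rw [h1]
  exact hD.inter ((isClosed_eq (by fun_prop) (by fun_prop)).inter
    (isClosed_eq (by fun_prop) (by fun_prop)))

/-- projections have norm at most one. -/
theorem norm_le_one {p : M} (h : Pj p) : ‖p‖ ≤ 1 := by
  obtain ⟨h1, h2⟩ := h
  have h3 := CStarRing.norm_star_mul_self (x := p)
  rw [h1, h2] at h3
  by_contra h4
  push Not at h4
  nlinarith

theorem norm_le_of_star_mul {u : M} (h : Pj (star u * u)) : ‖u‖ ≤ 1 := by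
  have h1 := norm_le_one h
  rw [CStarRing.norm_star_mul_self] at h1
  by_contra h2
  push Not at h2
  nlinarith

theorem Pj_one_sub {p : M} (h : Pj p) : Pj (1 - p) := by
  obtain ⟨h1, h2⟩ := h
  refine ⟨by rw [star_sub, star_one, h1], ?_⟩
  rw [mul_sub, sub_mul, sub_mul, h2, one_mul, mul_one, one_mul, sub_self, sub_zero]

/-- if `g * star g` is `η`-close to `y` with `q y = y` then `‖(1 - q) g‖² ≤ η`. -/
theorem close {q g y : M} (hq : Pj q) {η : ℝ} (hy : q * y = y) (h : ‖g * star g - y‖ ≤ η) :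
    ‖(1 - q) * g‖ * ‖(1 - q) * g‖ ≤ η := by
  have h1 : ‖(1 - q) * g‖ * ‖(1 - q) * g‖ = ‖((1 - q) * g) * star ((1 - q) * g)‖ :=
    (CStarRing.norm_self_mul_star).symm
  have h2 : ((1 - q) * g) * star ((1 - q) * g) = ((1 - q) * (g * star g - y)) * (1 - q) := by
    have h3 : (1 - q) * y = 0 := by rw [sub_mul, one_mul, hy, sub_self]
    rw [star_mul, (Pj_one_sub hq).1, mul_sub (1 - q) (g * star g) y, h3, sub_zero]
    simp only [mul_assoc]
  have n1 : ‖(1 - q)‖ ≤ 1 := norm_le_one (Pj_one_sub hq)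
  rw [h1, h2]
  calc ‖((1 - q) * (g * star g - y)) * (1 - q)‖
      ≤ ‖(1 - q) * (g * star g - y)‖ * ‖(1 - q)‖ := norm_mul_le _ _
    _ ≤ ‖(1 - q) * (g * star g - y)‖ * 1 := mul_le_mul_of_nonneg_left n1 (norm_nonneg _)
    _ = ‖(1 - q) * (g * star g - y)‖ := mul_one _
    _ ≤ ‖(1 - q)‖ * ‖g * star g - y‖ := norm_mul_le _ _
    _ ≤ 1 * ‖g * star g - y‖ := mul_le_mul_of_nonneg_right n1 (norm_nonneg _)
    _ = ‖g * star g - y‖ := one_mul _
    _ ≤ η := h

end

theorem t (hHER : S_HER) (hMPR : S_MPR) : S_QPR := by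
  intro C M _ _ D hD hL σ m b e he h1 S ε hS hε
  classical
  -- the choice of the projections
  obtain ⟨S', hS'1, hS'2, hS'3⟩ : ∃ S' : Finset M, (∀ d ∈ S', d ∈ D) ∧ (∀ d ∈ S, d ∈ S') ∧
      ∀ d ∈ S, star d ∈ S' := by
    refine ⟨S ∪ S.image star, ?_, ?_, ?_⟩
    · intro d hd
      rcases Finset.mem_union.mp hd with h | h
      · exact hS d h
      · obtain ⟨d', hd', rfl⟩ := Finset.mem_image.mp h
        exact star_mem (hS d' hd')
    · intro d hd
      exact Finset.mem_union_left _ hd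
    · intro d hd
      exact Finset.mem_union_right _ (Finset.mem_image_of_mem _ hd)
  set s : ℝ := ε / (m + 1) with hs
  have hs0 : 0 < s := by positivity
  have key : ∀ x : Fin m, b x = x → ∃ q : M, q ∈ D ∧ Pj q ∧ σ (e x x) * q = q ∧
      ∀ (z : Fin m), ∀ d ∈ S', ‖(1 - q) * (σ (e x z) * d)‖ ≤ s := by
    intro x hx
    have hP : star (σ (e x x)) = σ (e x x) := by rw [← map_star, he.star]
    have hPg : ∀ z, σ (e x x) * σ (e x z) = σ (e x z) := by
      intro z
      rw [← map_mul]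
      by_cases hz : b x = b z
      · rw [he.mul x x z rfl hz]
      · rw [he.zero x z hz, mul_zero]
    have hL2 : LAF (Hs D (σ (e x x)) hP) := by
      refine hHER M D (Hs D (σ (e x x)) hP) hD hL (Hs_closed hD.1 hP) (fun d hd => hd.1) ?_
      rintro h ⟨hh, hh1, hh2⟩ d hd k ⟨hk, hk1, hk2⟩
      refine ⟨(hD.2 k (h * d) ((hD.2 h d hd).1)).2, ?_, ?_⟩
      · rw [← mul_assoc, ← mul_assoc, hh1]
      · rw [mul_assoc, hk2]
    let T : Finset M := (Finset.univ ×ˢ S').image
      (fun p : Fin m × M => (σ (e x p.1) * p.2) * star (σ (e x p.1) * p.2))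
    have hT : ∀ a ∈ T, a ∈ Hs D (σ (e x x)) hP := by
      intro a ha
      obtain ⟨p, hp, rfl⟩ := Finset.mem_image.mp ha
      have hp2 : p.2 ∈ D := hS'1 _ (Finset.mem_product.mp hp).2
      have hg : σ (e x p.1) * p.2 ∈ D := (hD.2 _ _ hp2).1
      have h3 : σ (e x x) * (σ (e x p.1) * p.2 * star (σ (e x p.1) * p.2))
          = σ (e x p.1) * p.2 * star (σ (e x p.1) * p.2) := by
        rw [← mul_assoc, ← mul_assoc, hPg]
      refine ⟨mul_mem hg (star_mem hg), h3, ?_⟩
      have h4 := congrArg star h3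
      rwa [star_mul, star_mul, star_star, hP] at h4
    obtain ⟨F, hF1, hF2, hF3⟩ := hL2 T (s * s) hT (mul_pos hs0 hs0)
    obtain ⟨m', p, hp1, hp2, hp3, -⟩ := hMPR M F hF1
    have hqF : (∑ i, p i) ∈ F := sum_mem fun i _ => (hp1 i).1
    have hqH := hF2 hqF
    have hqP : Pj (∑ i, p i) := by
      refine ⟨?_, (hp3 _ hqF).1⟩
      rw [star_sum]
      exact Finset.sum_congr rfl fun i _ => (hp1 i).2.1.1
    refine ⟨∑ i, p i, hqH.1, hqP, hqH.2.1, ?_⟩
    intro z d hd
    obtain ⟨y, hy, hy2⟩ := hF3 ((σ (e x z) * d) * star (σ (e x z) * d))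
      (Finset.mem_image.mpr ⟨(z, d), Finset.mem_product.mpr ⟨Finset.mem_univ _, hd⟩, rfl⟩)
    have h5 := close hqP (hp3 y hy).1 hy2.le
    by_contra h6
    push Not at h6
    have h7 := mul_lt_mul'' h6 h6 hs0.le hs0.le
    linarith
  choose! q hq using key
  -- the estimate
  have hn : ∀ x : Fin m, ‖σ (e x (b x))‖ ≤ 1 := by
    intro x
    apply norm_le_of_star_mul
    rw [← map_star, he.star, ← map_mul, he.mul (b x) x (b x) (he.root x) (he.root x).symm]
    refine ⟨by rw [← map_star, he.star], ?_⟩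
    rw [← map_mul, he.mul (b x) (b x) (b x) rfl rfl]
  have est : ∀ d ∈ S', ‖d - (∑ x, σ (e x (b x)) * q (b x) * σ (e (b x) x)) * d‖ < ε := by
    intro d hd
    have h2 : d - (∑ x, σ (e x (b x)) * q (b x) * σ (e (b x) x)) * d
        = ∑ x, σ (e x (b x)) * ((1 - q (b x)) * (σ (e (b x) x) * d)) := by
      have h3 : d = ∑ x, σ (e x x) * d := by
        rw [← Finset.sum_mul, ← map_sum, h1, map_one, one_mul]
      have h9 : d - (∑ x, σ (e x (b x)) * q (b x) * σ (e (b x) x)) * d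
          = ∑ x, σ (e x x) * d - (∑ x, σ (e x (b x)) * q (b x) * σ (e (b x) x)) * d := by
        rw [← h3]
      rw [h9, Finset.sum_mul, ← Finset.sum_sub_distrib]
      refine Finset.sum_congr rfl fun x _ => ?_
      have h4 : σ (e x x) = σ (e x (b x)) * σ (e (b x) x) := by
        rw [← map_mul, he.mul x (b x) x (he.root x).symm (he.root x)]
      rw [h4, sub_mul, mul_sub, one_mul]
      simp only [mul_assoc]
    rw [h2]
    calc ‖∑ x, σ (e x (b x)) * ((1 - q (b x)) * (σ (e (b x) x) * d))‖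
        ≤ ∑ x, ‖σ (e x (b x)) * ((1 - q (b x)) * (σ (e (b x) x) * d))‖ := norm_sum_le _ _
      _ ≤ ∑ _x : Fin m, s := by
          refine Finset.sum_le_sum fun x _ => ?_
          have h5 := (hq (b x) (he.root x)).2.2.2 x d hd
          calc ‖σ (e x (b x)) * ((1 - q (b x)) * (σ (e (b x) x) * d))‖
              ≤ ‖σ (e x (b x))‖ * ‖(1 - q (b x)) * (σ (e (b x) x) * d)‖ := norm_mul_le _ _
            _ ≤ 1 * s := mul_le_mul (hn x) h5 (norm_nonneg _) zero_le_one
            _ = s := one_mul _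
      _ = m * s := by rw [Finset.sum_const, Finset.card_univ, Fintype.card_fin, nsmul_eq_mul]
      _ < ε := by
          have h6 : (m + 1 : ℝ) * s = ε := by
            rw [hs]
            field_simp
          nlinarith
  refine ⟨q, fun x hx => ⟨(hq x hx).1, (hq x hx).2.1, (hq x hx).2.2.1⟩, ?_⟩
  intro d hd
  refine ⟨est d (hS'2 d hd), ?_⟩
  have h7 : star (∑ x, σ (e x (b x)) * q (b x) * σ (e (b x) x))
      = ∑ x, σ (e x (b x)) * q (b x) * σ (e (b x) x) := by
    rw [star_sum]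
    refine Finset.sum_congr rfl fun x _ => ?_
    rw [star_mul, star_mul, ← map_star, ← map_star, he.star, he.star,
      (hq (b x) (he.root x)).2.1.1, mul_assoc]
  have h8 := est (star d) (hS'3 d hd)
  rw [← norm_star, star_sub, star_mul, star_star, h7] at h8
  exact h8

end Pool.Agent.Helper77.AE.QPR
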